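import Pool.Agent.Helper43.FlMain

namespace Pool.Agent.Results.MP_aa0b3f_ag.InfiniteFlips

open Pool.Agent.Helper43

/-- There is an infinite sequence of `K + β` flips starting with a generalized klt pair `(X 0, β)`
on a nonsingular projective rational threefold. -/
theorem result : ∃ (b : Fin 3 → RatFun3) (β : BDiv ℂ RatFun3 2) (X : ℕ → ProjVar ℂ RatFun3)
    (L : ℕ → BDiv ℂ RatFun3 2), IsDiffBasis ℂ b ∧
    (∀ n, IsGkltPair b β (X n) (L n)) ∧
    ∀ n, ProjVar.IsFlip (X n) (X (n + 1)) (L n) (L (n + 1)) := Fl.main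

end Pool.Agent.Results.MP_aa0b3f_ag.InfiniteFlips
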